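import Pool.Agent.Helper35.CA.Stm

/-!
Package EX: the excluded sets.
-/

set_option autoImplicit false
set_option linter.unusedSectionVars false

namespace Pool.Agent.Helper46.CA

open Set Module Pool.Agent.Helper35.EM Pool.Agent.Helper35.CA

section

variable {K : Type} [Field K] [Algebra ℚ K]

lemma al_rat (r : ℚ) : IsAlgebraic ℚ (r : K) := by
  have := isAlgebraic_algebraMap (R := ℚ) (A := K) r
  rwa [eq_ratCast] at this

lemma al_one : IsAlgebraic ℚ (1 : K) := isAlgebraic_one

lemma al_div {a b : K} (ha : IsAlgebraic ℚ a) (hb : IsAlgebraic ℚ b) : IsAlgebraic ℚ (a / b) := by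
  rw [div_eq_mul_inv]
  exact ha.mul hb.inv

lemma al_i (D : ExpData K) : IsAlgebraic ℚ D.i := by
  apply IsAlgebraic.of_pow (n := 2) two_pos
  rw [D.i_sq]
  exact isAlgebraic_one.neg

/-- Baker's theorem in terms of coefficients -/
lemma bakerN {D : ExpData K} (h : Classical D) (n : ℕ) (x : Fin n → K)
    (hx : ∀ g : Fin n → ℚ, ∑ j, (g j : K) * x j = 0 → ∀ j, g j = 0)
    (hE : ∀ j, IsAlgebraic ℚ (D.E (x j))) (a : Fin (n + 1) → K) (ha : ∀ j, IsAlgebraic ℚ (a j))
    (h0 : a 0 + ∑ j : Fin n, a j.succ * x j = 0) : ∀ j, a j = 0 := by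
  have hli : LinearIndependent ℚ x := by
    rw [Fintype.linearIndependent_iff]
    intro g hg
    apply hx
    rw [← hg]
    refine Finset.sum_congr rfl fun j _ => ?_
    rw [Algebra.smul_def, eq_ratCast]
  have h2 := h.baker n x hli hE
  rw [Fintype.linearIndependent_iff] at h2
  have h3 := h2 (fun j => ⟨a j, mem_algebraicClosure_iff.2 (ha j)⟩) (by
    rw [Fin.sum_univ_succ, ← h0]
    congr 1
    · show a 0 * 1 = a 0
      rw [mul_one])
  intro j
  exact congrArg Subtype.val (h3 j)

lemma baker1 {D : ExpData K} (h : Classical D) {x a b : K} (hx : IsAlgebraic ℚ (D.E x))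
    (h0 : x ≠ 0) (ha : IsAlgebraic ℚ a) (hb : IsAlgebraic ℚ b) (h1 : a + b * x = 0) :
    a = 0 ∧ b = 0 := by
  have hcz : CharZero K := algebraRat.charZero K
  have h2 := bakerN h 1 ![x] (by
    intro g hg j
    rw [Fin.sum_univ_one] at hg
    have : g 0 = 0 := by
      rcases mul_eq_zero.1 hg with h3 | h3
      · exact_mod_cast h3
      · exact absurd h3 h0
    rw [Subsingleton.elim j 0, this]) (by
    intro j
    rw [Subsingleton.elim j 0]
    exact hx) ![a, b] (by
    intro j
    fin_cases j
    · exact ha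
    · exact hb) (by
    rw [Fin.sum_univ_one]
    exact h1)
  exact ⟨h2 0, h2 1⟩

lemma baker2 {D : ExpData K} (h : Classical D) {x y a b c : K} (hx : IsAlgebraic ℚ (D.E x))
    (hy : IsAlgebraic ℚ (D.E y)) (h0 : ∀ r s : ℚ, (r : K) * x + s * y = 0 → r = 0 ∧ s = 0)
    (ha : IsAlgebraic ℚ a) (hb : IsAlgebraic ℚ b) (hc : IsAlgebraic ℚ c)
    (h1 : a + b * x + c * y = 0) : a = 0 ∧ b = 0 ∧ c = 0 := by
  have h2 := bakerN h 2 ![x, y] (by
    intro g hg
    rw [Fin.sum_univ_two] at hg
    have := h0 _ _ hg
    rw [Fin.forall_fin_two]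
    exact this) (by
    rw [Fin.forall_fin_two]
    exact ⟨hx, hy⟩) ![a, b, c] (by
    intro j
    fin_cases j
    · exact ha
    · exact hb
    · exact hc) (by
    rw [Fin.sum_univ_two, ← h1]
    show a + (b * x + c * y) = _
    ring)
  exact ⟨h2 0, h2 1, h2 2⟩

lemma baker3 {D : ExpData K} (h : Classical D) {x y z a b c d : K} (hx : IsAlgebraic ℚ (D.E x))
    (hy : IsAlgebraic ℚ (D.E y)) (hz : IsAlgebraic ℚ (D.E z))
    (h0 : ∀ r s t : ℚ, (r : K) * x + s * y + t * z = 0 → r = 0 ∧ s = 0 ∧ t = 0)
    (ha : IsAlgebraic ℚ a) (hb : IsAlgebraic ℚ b) (hc : IsAlgebraic ℚ c) (hd : IsAlgebraic ℚ d)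
    (h1 : a + b * x + c * y + d * z = 0) : a = 0 ∧ b = 0 ∧ c = 0 ∧ d = 0 := by
  have h2 := bakerN h 3 ![x, y, z] (by
    intro g hg
    rw [Fin.sum_univ_three] at hg
    have h3 := h0 _ _ _ hg
    intro j
    fin_cases j
    · exact h3.1
    · exact h3.2.1
    · exact h3.2.2) (by
    intro j
    fin_cases j
    · exact hx
    · exact hy
    · exact hz) ![a, b, c, d] (by
    intro j
    fin_cases j
    · exact ha
    · exact hb
    · exact hc
    · exact hd) (by
    rw [Fin.sum_univ_three, ← h1]
    show a + (b * x + c * y + d * z) = _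
    ring)
  exact ⟨h2 0, h2 1, h2 2, h2 3⟩

lemma mem_one (D : ExpData K) {a : K} (ha : IsAlgebraic ℚ a) : a ∈ logSpace D := by
  have h1 : (1 : K) ∈ logSpace D := Submodule.subset_span (Set.mem_insert _ _)
  have h2 := (logSpace D).smul_mem (⟨a, mem_algebraicClosure_iff.2 ha⟩ : algebraicClosure ℚ K) h1
  have h3 : (⟨a, mem_algebraicClosure_iff.2 ha⟩ : algebraicClosure ℚ K) • (1 : K) = a := by
    show a * 1 = a
    rw [mul_one]
  rwa [h3] at h2

lemma mem_log (D : ExpData K) {a x : K} (ha : IsAlgebraic ℚ a) (hx : IsAlgebraic ℚ (D.E x)) :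
    a * x ∈ logSpace D := by
  have h1 : x ∈ logSpace D := Submodule.subset_span (Set.mem_insert_of_mem _ hx)
  exact (logSpace D).smul_mem (⟨a, mem_algebraicClosure_iff.2 ha⟩ : algebraicClosure ℚ K) h1

/-- the strong six exponentials theorem with one element equal to `1` on both sides -/
lemma sixL {D : ExpData K} (h : Classical D) {x y z : K}
    (hx : ∀ a b : K, IsAlgebraic ℚ a → IsAlgebraic ℚ b → a + b * x = 0 → a = 0 ∧ b = 0)
    (hy : ∀ a b c : K, IsAlgebraic ℚ a → IsAlgebraic ℚ b → IsAlgebraic ℚ c →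
      a + b * y + c * z = 0 → a = 0 ∧ b = 0 ∧ c = 0)
    (m1 : y ∈ logSpace D) (m2 : z ∈ logSpace D) (m3 : x ∈ logSpace D) (m4 : x * y ∈ logSpace D)
    (m5 : x * z ∈ logSpace D) : False := by
  obtain ⟨i, j, hij⟩ := h.six ![1, x] ![1, y, z] (by
    rw [Fintype.linearIndependent_iff]
    intro g hg
    rw [Fin.sum_univ_two] at hg
    have h2 := hx (g 0) (g 1) (mem_algebraicClosure_iff.1 (g 0).2)
      (mem_algebraicClosure_iff.1 (g 1).2) (by
        rw [← hg]
        show _ = (g 0 : K) * 1 + (g 1 : K) * x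
        rw [mul_one])
    rw [Fin.forall_fin_two]
    exact ⟨Subtype.ext h2.1, Subtype.ext h2.2⟩) (by
    rw [Fintype.linearIndependent_iff]
    intro g hg
    rw [Fin.sum_univ_three] at hg
    have h2 := hy (g 0) (g 1) (g 2) (mem_algebraicClosure_iff.1 (g 0).2)
      (mem_algebraicClosure_iff.1 (g 1).2) (mem_algebraicClosure_iff.1 (g 2).2) (by
        rw [← hg]
        show _ = (g 0 : K) * 1 + (g 1 : K) * y + (g 2 : K) * z
        rw [mul_one])
    intro j
    fin_cases j
    · exact Subtype.ext h2.1
    · exact Subtype.ext h2.2.1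
    · exact Subtype.ext h2.2.2)
  apply hij
  fin_cases i
  · fin_cases j
    · show (1 : K) * 1 ∈ _
      rw [mul_one]
      exact mem_one D isAlgebraic_one
    · show (1 : K) * y ∈ _
      rw [one_mul]
      exact m1
    · show (1 : K) * z ∈ _
      rw [one_mul]
      exact m2
  · fin_cases j
    · show x * 1 ∈ _
      rw [mul_one]
      exact m3
    · exact m4
    · exact m5

lemma E_zero (D : ExpData K) : D.E 0 = 1 := (D.E_ker 0).2 ⟨0, by simp⟩

lemma E_nat (D : ExpData K) (x : K) (n : ℕ) : D.E (n * x) = D.E x ^ n := by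
  induction n with
  | zero => rw [Nat.cast_zero, zero_mul, pow_zero, E_zero]
  | succ n ih => rw [Nat.cast_succ, add_mul, one_mul, D.E_add, ih, pow_succ]

lemma E_neg (D : ExpData K) (x : K) : D.E (-x) = (D.E x)⁻¹ := by
  have h1 : D.E (-x) * D.E x = 1 := by rw [← D.E_add, neg_add_cancel, E_zero]
  exact eq_inv_of_mul_eq_one_left h1

lemma E_int (D : ExpData K) (x : K) (n : ℤ) : D.E (n * x) = D.E x ^ n := by
  obtain ⟨m, rfl | rfl⟩ := n.eq_nat_or_neg
  · rw [Int.cast_natCast, E_nat, zpow_natCast]
  · rw [Int.cast_neg, Int.cast_natCast, neg_mul, E_neg, E_nat, zpow_neg, zpow_natCast]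

lemma al_zpow {a : K} (ha : IsAlgebraic ℚ a) (n : ℤ) : IsAlgebraic ℚ (a ^ n) := by
  obtain ⟨m, rfl | rfl⟩ := n.eq_nat_or_neg
  · rw [zpow_natCast]
    exact ha.pow m
  · rw [zpow_neg, zpow_natCast]
    exact (ha.pow m).inv

lemma al_of_zpow {a : K} {n : ℤ} (hn : n ≠ 0) (ha : IsAlgebraic ℚ (a ^ n)) : IsAlgebraic ℚ a := by
  obtain ⟨m, rfl | rfl⟩ := n.eq_nat_or_neg
  · rw [zpow_natCast] at ha
    exact ha.of_pow (by omega)
  · rw [zpow_neg, zpow_natCast] at ha
    have h1 := ha.inv
    rw [inv_inv] at h1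
    exact h1.of_pow (by omega)

end

theorem ex : S_Excl := by
  intro K _ _ D l hC hl hcl hne hne1 S hS
  have hcz : CharZero K := algebraRat.charZero K
  set e : K := D.E 1 with he
  have hcj : ∀ q : ℚ, D.cj (q : K) = q := fun q => map_ratCast D.cj q
  have hpi0 : D.pi ≠ 0 := by
    rw [← hl]
    exact D.E_ne_zero _
  have he0 : e ≠ 0 := D.E_ne_zero _
  have hi0 : D.i ≠ 0 := by
    intro h0
    have := D.i_sq
    rw [h0] at this
    norm_num at this
  have hai : IsAlgebraic ℚ D.i := al_i D.toExpData
  -- `e` is transcendental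
  have hte : ¬ IsAlgebraic ℚ e := by
    have h1 := hC.lindemann 1 ![1] (by
      rw [Fintype.linearIndependent_iff]
      intro g hg j
      rw [Fin.sum_univ_one] at hg
      have h2 : (g 0 : K) * 1 = 0 := by
        rw [← hg, Algebra.smul_def, eq_ratCast]
        rfl
      rw [mul_one] at h2
      rw [Subsingleton.elim j 0]
      exact_mod_cast h2) (by
      intro j
      rw [Subsingleton.elim j 0]
      exact isAlgebraic_one)
    have h2 := h1.transcendental 0
    exact h2
  -- the logarithm `i pi`
  have hEip : IsAlgebraic ℚ (D.E (D.i * D.pi)) := by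
    apply IsAlgebraic.of_pow (n := 2) two_pos
    rw [← E_nat]
    have h1 : D.E (((2 : ℕ) : K) * (D.i * D.pi)) = 1 := (D.E_ker _).2 ⟨1, by push_cast; ring⟩
    rw [h1]
    exact isAlgebraic_one
  have hip0 : D.i * D.pi ≠ 0 := mul_ne_zero hi0 hpi0
  -- `1, pi` are independent
  have hpi : ∀ a b : K, IsAlgebraic ℚ a → IsAlgebraic ℚ b → a + b * D.pi = 0 → a = 0 ∧ b = 0 := by
    intro a b ha hb h1
    have h2 := baker1 hC hEip hip0 ha (hb.mul hai.neg) (by
      calc a + b * -D.i * (D.i * D.pi) = a + b * D.pi * (-(D.i ^ 2)) := by ring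
        _ = a + b * D.pi := by rw [D.i_sq]; ring
        _ = 0 := h1)
    refine ⟨h2.1, ?_⟩
    rcases mul_eq_zero.1 h2.2 with h3 | h3
    · exact h3
    · exact absurd (neg_eq_zero.1 h3) hi0
  have htpi : ¬ IsAlgebraic ℚ D.pi := by
    intro h1
    have := (hpi D.pi (-1) h1 isAlgebraic_one.neg (by ring)).2
    norm_num at this
  have hpiL : D.pi ∈ logSpace D.toExpData := by
    have h1 := mem_log D.toExpData (hai.neg) hEip
    have h2 : -D.i * (D.i * D.pi) = D.pi := by
      calc -D.i * (D.i * D.pi) = D.pi * (-(D.i ^ 2)) := by ring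
        _ = D.pi := by rw [D.i_sq]; ring
    rwa [h2] at h1
  have n0 : num D.toExpData l 0 = D.pi + e := rfl
  have n1 : num D.toExpData l 1 = D.pi * e := rfl
  have n2 : num D.toExpData l 2 = D.E (e * l) := rfl
  have n3 : num D.toExpData l 3 = D.E e := rfl
  have n4 : num D.toExpData l 4 = D.E (D.pi * l) := rfl
  -- consequences of `pi e` rational
  have h1e : ∀ r : ℚ, D.pi * e = r → IsAlgebraic ℚ (D.E (1 + l)) ∧ (1 + l ≠ 0) ∧
      ¬ IsAlgebraic ℚ l ∧ l ≠ 0 ∧ l ∈ logSpace D.toExpData ∧ (r : K) ≠ 0 := by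
    intro r hr
    have h1 : D.E (1 + l) = r := by rw [D.E_add, hl, ← hr, mul_comm]
    have h2 : IsAlgebraic ℚ (D.E (1 + l)) := by rw [h1]; exact al_rat r
    have h3 : (1 + l ≠ 0) := by
      intro h4
      rw [h4, E_zero] at h1
      exact hne1 (by rw [hr, ← h1])
    have h4 : ¬ IsAlgebraic ℚ l := by
      intro h5
      have h6 := (baker1 hC h2 h3 (isAlgebraic_one.add h5) isAlgebraic_one.neg (by ring)).2
      norm_num at h6
    have h5 : l ≠ 0 := by
      rintro rfl
      exact h4 isAlgebraic_zero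
    refine ⟨h2, h3, h4, h5, ?_, ?_⟩
    · have h6 := mem_log D.toExpData isAlgebraic_one h2
      have h7 := mem_one D.toExpData (isAlgebraic_one (R := ℚ) (A := K)).neg
      have h8 := (logSpace D.toExpData).add_mem h6 h7
      have h9 : 1 * (1 + l) + -1 = l := by ring
      rwa [h9] at h8
    · rw [← hr]
      exact mul_ne_zero hpi0 he0
  have hlog1 : ∀ {x : K}, IsAlgebraic ℚ (D.E x) → x ∈ logSpace D.toExpData := by
    intro x hx
    have := mem_log D.toExpData isAlgebraic_one hx
    rwa [one_mul] at this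
  refine ⟨?_, ?_, ?_, ?_, ?_, ?_⟩
  · -- {0, 1}
    intro hsub
    obtain ⟨r, hr⟩ := hS 0 (hsub (by simp))
    obtain ⟨s, hs⟩ := hS 1 (hsub (by simp))
    rw [n0] at hr
    rw [n1] at hs
    apply hte
    have h1 : (e - (r / 2 : ℚ)) ^ 2 = ((r ^ 2 / 4 - s : ℚ) : K) := by
      have h2 : D.pi = r - e := by rw [← hr]; ring
      rw [h2] at hs
      push_cast
      linear_combination -hs
    have h2 : IsAlgebraic ℚ (e - ((r / 2 : ℚ) : K)) := by
      apply IsAlgebraic.of_pow (n := 2) two_pos
      rw [h1]
      exact al_rat _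
    have h3 := h2.add (al_rat (r / 2 : ℚ))
    rwa [sub_add_cancel] at h3
  · -- {0, 3}
    intro hsub
    obtain ⟨r, hr⟩ := hS 0 (hsub (by simp))
    obtain ⟨s, hs⟩ := hS 3 (hsub (by simp))
    rw [n0] at hr
    rw [n3] at hs
    have hpe : D.pi = r - e := by rw [← hr]; ring
    have hEe : IsAlgebraic ℚ (D.E e) := by rw [hs]; exact al_rat s
    have h2 := baker2 hC hEe hEip (a := -(D.i * r)) (b := D.i) (c := 1) (by
      intro a b hab
      have h3 : ((a : K) - b * D.i) * e = -(b * D.i * r) := by
        rw [hpe] at hab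
        linear_combination hab
      have h4 : (a : K) - b * D.i = 0 := by
        by_contra h5
        apply hte
        have h6 : e = -(b * D.i * r) / (a - b * D.i) := by
          rw [← h3]
          field_simp
        rw [h6]
        exact al_div (((al_rat b).mul hai).mul (al_rat r)).neg
            ((al_rat a).sub ((al_rat b).mul hai))
      have h5 : (a : K) ^ 2 + b ^ 2 = 0 := by
        have h7 := D.i_sq
        linear_combination ((a : K) + b * D.i) * h4 + (b : K) ^ 2 * h7
      have h6 : a ^ 2 + b ^ 2 = 0 := by exact_mod_cast h5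
      constructor
      · nlinarith [sq_nonneg a, sq_nonneg b]
      · nlinarith [sq_nonneg a, sq_nonneg b]) (hai.mul (al_rat r)).neg hai isAlgebraic_one (by
      rw [hpe]; ring)
    exact one_ne_zero h2.2.2
  · -- {1, 2, 3}
    intro hsub
    obtain ⟨r, hr⟩ := hS 1 (hsub (by simp))
    obtain ⟨s, hs⟩ := hS 2 (hsub (by simp))
    obtain ⟨t, ht⟩ := hS 3 (hsub (by simp))
    rw [n1] at hr
    rw [n2] at hs
    rw [n3] at ht
    obtain ⟨hE1, h10, htl, hl0, hlL, hr0⟩ := h1e r hr
    have hEe : IsAlgebraic ℚ (D.E e) := by rw [ht]; exact al_rat t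
    have hEel : IsAlgebraic ℚ (D.E (e * l)) := by rw [hs]; exact al_rat s
    refine sixL hC (x := D.pi) (y := e) (z := e * l) hpi ?_ (hlog1 hEe) (hlog1 hEel) hpiL ?_ ?_
    · intro a b c ha hb hc habc
      refine baker2 hC hEe hEel ?_ ha hb hc habc
      intro u v huv
      have h1 : (u : K) + v * l = 0 := by
        have h2 : e * ((u : K) + v * l) = 0 := by rw [← huv]; ring
        exact (mul_eq_zero.1 h2).resolve_left he0
      have h2 : v = 0 := by
        by_contra hv
        apply htl
        have hv' : (v : K) ≠ 0 := by exact_mod_cast hv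
        have h3 : l = -(u : K) / v := by
          field_simp
          linear_combination h1
        rw [h3]
        exact al_div (al_rat u).neg (al_rat v)
      subst h2
      rw [Rat.cast_zero, zero_mul, add_zero] at h1
      exact ⟨by exact_mod_cast h1, rfl⟩
    · rw [hr]
      exact mem_one D.toExpData (al_rat r)
    · rw [← mul_assoc, hr]
      exact (logSpace D.toExpData).smul_mem
        (⟨(r : K), mem_algebraicClosure_iff.2 (al_rat r)⟩ : algebraicClosure ℚ K) hlL
  · -- {1, 2, 4}
    intro hsub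
    obtain ⟨r, hr⟩ := hS 1 (hsub (by simp))
    obtain ⟨s, hs⟩ := hS 2 (hsub (by simp))
    obtain ⟨t, ht⟩ := hS 4 (hsub (by simp))
    rw [n1] at hr
    rw [n2] at hs
    rw [n4] at ht
    obtain ⟨hE1, h10, htl, hl0, hlL, hr0⟩ := h1e r hr
    have hEpl : IsAlgebraic ℚ (D.E (D.pi * l)) := by rw [ht]; exact al_rat t
    have hEel : IsAlgebraic ℚ (D.E (e * l)) := by rw [hs]; exact al_rat s
    -- the rational independence of `1 + l`, `e l`
    have hind : ∀ u v : ℚ, (u : K) * (1 + l) + v * (e * l) = 0 → u = 0 ∧ v = 0 := by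
      intro u v huv
      by_cases hv : v = 0
      · subst hv
        rw [Rat.cast_zero, zero_mul, add_zero] at huv
        have h1 := (mul_eq_zero.1 huv).resolve_right h10
        exact ⟨by exact_mod_cast h1, rfl⟩
      exfalso
      have hv' : (v : K) ≠ 0 := by exact_mod_cast hv
      have hu' : (u : K) ≠ 0 := by
        intro hu
        rw [hu, zero_mul, zero_add] at huv
        exact (mul_ne_zero hv' (mul_ne_zero he0 hl0)) huv
      -- `pi (1 + l) u = - r v l`
      have h2 : (u : K) * (D.pi * (1 + l)) = -(r * v * l) := by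
        have h3 : D.pi * ((u : K) * (1 + l) + v * (e * l)) = 0 := by rw [huv, mul_zero]
        linear_combination h3 - v * l * hr
      have h3 := baker3 hC hE1 hEip hEpl (a := -((r : K) * v / u)) (b := (r : K) * v / u)
        (c := -D.i) (d := 1) (by
        intro a b c habc
        have h4 : (a : K) * (1 + l) - b * (D.i * D.pi) + c * (D.pi * l) = 0 := by
          have h5 := congrArg D.cj habc
          rw [map_add, map_add, map_mul, map_mul, map_mul, map_mul, map_mul, map_add, map_one,
            map_zero, hcj, hcj, hcj, hcl, D.cj_i, D.cj_pi] at h5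
          linear_combination h5
        have h5 : (b : K) * (D.i * D.pi) = 0 := by
          have h6 : (2 : K) * ((b : K) * (D.i * D.pi)) = 0 := by linear_combination habc - h4
          exact (mul_eq_zero.1 h6).resolve_left two_ne_zero
        have hb : (b : K) = 0 := (mul_eq_zero.1 h5).resolve_right hip0
        have h6 : (a : K) * (1 + l) + c * (D.pi * l) = 0 := by
          rw [hb] at habc
          linear_combination habc
        have hc : (c : K) = 0 := by
          by_contra hc
          apply htl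
          -- `a u (1 + l) ^ 2 = c r v l ^ 2`
          have h7 : (a : K) * u * (1 + l) ^ 2 = c * r * v * l ^ 2 := by
            linear_combination (u : K) * (1 + l) * h6 - c * l * h2
          -- `1 + l = w l`, `w ^ 2` rational
          by_cases ha : (a : K) = 0
          · exfalso
            rw [ha] at h6
            rw [zero_mul, zero_add] at h6
            exact (mul_ne_zero hc (mul_ne_zero hpi0 hl0)) h6
          have h8 : ((1 + l) / l) ^ 2 = ((c * r * v / (a * u) : ℚ) : K) := by
            push_cast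
            rw [div_pow, div_eq_div_iff (pow_ne_zero _ hl0) (mul_ne_zero ha hu')]
            linear_combination h7
          have h9 : IsAlgebraic ℚ ((1 + l) / l) := by
            apply IsAlgebraic.of_pow (n := 2) two_pos
            rw [h8]
            exact al_rat _
          have h10' : (1 + l) / l - 1 = l⁻¹ := by field_simp; ring
          have h11 := (h9.sub isAlgebraic_one).inv
          rw [h10', inv_inv] at h11
          exact h11
        have ha : (a : K) = 0 := by
          rw [hc, zero_mul, add_zero] at h6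
          exact (mul_eq_zero.1 h6).resolve_right h10
        exact ⟨by exact_mod_cast ha, by exact_mod_cast hb, by exact_mod_cast hc⟩)
        (al_div ((al_rat r).mul (al_rat v)) (al_rat u)).neg
        (al_div ((al_rat r).mul (al_rat v)) (al_rat u)) hai.neg isAlgebraic_one (by
        have h7 := D.i_sq
        have h8 : (u : K) * (-((r : K) * v / u) + (r : K) * v / u * (1 + l) +
            -D.i * (D.i * D.pi) + 1 * (D.pi * l)) = 0 := by
          have h9 : (u : K) * ((r : K) * v / u) = r * v := by field_simp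
          linear_combination l * h9 + h2 - u * D.pi * h7
        exact (mul_eq_zero.1 h8).resolve_left hu')
      exact one_ne_zero h3.2.2.2
    refine sixL hC (x := D.pi) (y := l) (z := e * l) hpi ?_ hlL (hlog1 hEel) hpiL
      (hlog1 hEpl) ?_
    · intro a b c ha hb hc habc
      have h1 := baker2 hC hE1 hEel hind (a := a - b) (b := b) (c := c) (ha.sub hb) hb hc (by
        rw [← habc]; ring)
      exact ⟨by rw [← sub_add_cancel a b, h1.1, h1.2.1, add_zero], h1.2.1, h1.2.2⟩
    · rw [← mul_assoc, hr]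
      exact (logSpace D.toExpData).smul_mem
        (⟨(r : K), mem_algebraicClosure_iff.2 (al_rat r)⟩ : algebraicClosure ℚ K) hlL
  · -- {1, 3, 4}
    intro hsub
    obtain ⟨r, hr⟩ := hS 1 (hsub (by simp))
    obtain ⟨s, hs⟩ := hS 3 (hsub (by simp))
    obtain ⟨t, ht⟩ := hS 4 (hsub (by simp))
    rw [n1] at hr
    rw [n3] at hs
    rw [n4] at ht
    obtain ⟨hE1, h10, htl, hl0, hlL, hr0⟩ := h1e r hr
    have hEpl : IsAlgebraic ℚ (D.E (D.pi * l)) := by rw [ht]; exact al_rat t
    have hEe : IsAlgebraic ℚ (D.E e) := by rw [hs]; exact al_rat s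
    have hind : ∀ u v : ℚ, (u : K) * (1 + l) + v * e = 0 → u = 0 ∧ v = 0 := by
      intro u v huv
      by_cases hv : v = 0
      · subst hv
        rw [Rat.cast_zero, zero_mul, add_zero] at huv
        have h1 := (mul_eq_zero.1 huv).resolve_right h10
        exact ⟨by exact_mod_cast h1, rfl⟩
      exfalso
      have hv' : (v : K) ≠ 0 := by exact_mod_cast hv
      have hu' : (u : K) ≠ 0 := by
        intro hu
        rw [hu, zero_mul, zero_add] at huv
        exact (mul_ne_zero hv' he0) huv
      -- `u pi (1 + l) = - v r`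
      have h2 : (u : K) * (D.pi * (1 + l)) = -(v * r) := by
        have h3 : D.pi * ((u : K) * (1 + l) + v * e) = 0 := by rw [huv, mul_zero]
        linear_combination h3 - v * hr
      have h3 := baker2 hC hEip hEpl (a := (v : K) * r / u) (b := -D.i) (c := 1) (by
        intro a b hab
        have h4 : -((a : K) * (D.i * D.pi)) + b * (D.pi * l) = 0 := by
          have h5 := congrArg D.cj hab
          rw [map_add, map_mul, map_mul, map_mul, map_mul, map_zero, hcj, hcj, hcl, D.cj_i,
            D.cj_pi] at h5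
          linear_combination h5
        have h5 : (2 : K) * ((a : K) * (D.i * D.pi)) = 0 := by linear_combination hab - h4
        have ha : (a : K) = 0 :=
          (mul_eq_zero.1 ((mul_eq_zero.1 h5).resolve_left two_ne_zero)).resolve_right hip0
        have hb : (b : K) = 0 := by
          rw [ha, zero_mul, zero_add] at hab
          exact (mul_eq_zero.1 hab).resolve_right (mul_ne_zero hpi0 hl0)
        exact ⟨by exact_mod_cast ha, by exact_mod_cast hb⟩)
        (al_div ((al_rat v).mul (al_rat r)) (al_rat u)) hai.neg isAlgebraic_one (by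
        have h7 := D.i_sq
        have h8 : (u : K) * ((v : K) * r / u + -D.i * (D.i * D.pi) + 1 * (D.pi * l)) = 0 := by
          have h9 : (u : K) * ((v : K) * r / u) = v * r := by field_simp
          linear_combination h9 + h2 - u * D.pi * h7
        exact (mul_eq_zero.1 h8).resolve_left hu')
      exact one_ne_zero h3.2.2
    refine sixL hC (x := D.pi) (y := l) (z := e) hpi ?_ hlL (hlog1 hEe) hpiL (hlog1 hEpl) ?_
    · intro a b c ha hb hc habc
      have h1 := baker2 hC hE1 hEe hind (a := a - b) (b := b) (c := c) (ha.sub hb) hb hc (by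
        rw [← habc]; ring)
      exact ⟨by rw [← sub_add_cancel a b, h1.1, h1.2.1, add_zero], h1.2.1, h1.2.2⟩
    · rw [hr]
      exact mem_one D.toExpData (al_rat r)
  · -- {0, 2, 4}
    intro hsub
    obtain ⟨r, hr⟩ := hS 0 (hsub (by simp))
    obtain ⟨s, hs⟩ := hS 2 (hsub (by simp))
    obtain ⟨t, ht⟩ := hS 4 (hsub (by simp))
    rw [n0] at hr
    rw [n2] at hs
    rw [n4] at ht
    have hr0 : r ≠ 0 := by
      rintro rfl
      rw [Rat.cast_zero] at hr
      exact hne hr
    have h1 : D.E ((r : K) * l) = s * t := by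
      rw [← hr, add_mul, D.E_add, hs, ht, mul_comm]
    have h2 : D.E ((r.num : K) * l) = ((s : K) * t) ^ r.den := by
      rw [← h1, ← E_nat]
      congr 1
      have h3 : ((r.den : ℚ) : K) * (r : K) = ((r.num : ℚ) : K) := by
        rw [← Rat.cast_mul, mul_comm, Rat.mul_den_eq_num]
      push_cast at h3
      rw [← mul_assoc, h3]
    rw [E_int, hl] at h2
    apply htpi
    refine al_of_zpow (Rat.num_ne_zero.2 hr0) ?_
    rw [h2]
    exact ((al_rat s).mul (al_rat t)).pow _

end Pool.Agent.Helper46.CA
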